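import Pool.Agent.H41.CP.GDefs

/-!
# Project CPG of helper41: the combinatorial end of the digraph lemma
-/

set_option autoImplicit false

namespace Pool.Agent.H286.CPG

open Finset

variable {V : Type} [Fintype V] [DecidableEq V]

/-- the hypotheses -/
structure Hyp (r : ℕ) (arc : V → V → Prop) [DecidableRel arc] (X : Finset V) : Prop where
  hr : 4 ≤ r
  hV : Fintype.card V = 2 * r
  hX : X.card = r
  irr : ∀ v, ¬ arc v v
  out : ∀ v, r - 2 ≤ (Finset.univ.filter fun u => arc v u).card
  inn : ∀ v, r - 2 ≤ (Finset.univ.filter fun u => arc u v).card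
  noc : ∀ B : Finset V, B.Nonempty → (∀ v ∈ B, ∀ u, arc v u → u ∈ B) → B = Finset.univ
  prs : ∀ x ∈ X, ∀ y ∈ X, x ≠ y → ∃ (A : Finset V) (z : V), x ∈ A ∧ y ∈ A ∧ z ∉ A ∧
    (A.card = r ∨ A.card = r + 1) ∧
    ∀ a ∈ A, ∀ u, arc a u → u = z ∨ (u ∈ A ∧ u ≠ x ∧ u ≠ y)

/-- the structure of the first type -/
structure Alpha (r : ℕ) (arc : V → V → Prop) (x y : V) (K : Finset V) (z : V) : Prop where
  card : K.card = r - 2
  xK : x ∉ K
  yK : y ∉ K
  zK : z ∉ K
  xy : x ≠ y
  zx : z ≠ x
  zy : z ≠ y
  oK : ∀ k ∈ K, ∀ u, arc k u → u = z ∨ u ∈ K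
  ox : ∀ u, arc x u → u = z ∨ u ∈ K
  oy : ∀ u, arc y u → u = z ∨ u ∈ K

theorem Alpha.symm {r : ℕ} {arc : V → V → Prop} {x y : V} {K : Finset V} {z : V}
    (h : Alpha r arc x y K z) : Alpha r arc y x K z :=
  ⟨h.card, h.yK, h.xK, h.zK, h.xy.symm, h.zy, h.zx, h.oK, h.oy, h.ox⟩

variable {r : ℕ} {arc : V → V → Prop} [DecidableRel arc] {X : Finset V}

theorem exact_out (hy : Hyp r arc X) {x y : V} {K : Finset V} {z : V}
    (h : Alpha r arc x y K z) {k : V} (hk : k ∈ K) :
    Finset.univ.filter (fun u => arc k u) = insert z (K.erase k) := by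
  apply Finset.eq_of_subset_of_card_le
  · intro u hu
    have hu' : arc k u := (Finset.mem_filter.1 hu).2
    rcases h.oK k hk u hu' with rfl | h1
    · exact Finset.mem_insert_self _ _
    · refine Finset.mem_insert_of_mem (Finset.mem_erase.2 ⟨?_, h1⟩)
      rintro rfl
      exact hy.irr _ hu'
  · have h1 : z ∉ K.erase k := fun hz => h.zK (Finset.mem_of_mem_erase hz)
    rw [Finset.card_insert_of_notMem h1, Finset.card_erase_of_mem hk, h.card]
    have := hy.out k
    have := hy.hr
    omega

theorem arc_of_mem (hy : Hyp r arc X) {x y : V} {K : Finset V} {z : V}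
    (h : Alpha r arc x y K z) {k u : V} (hk : k ∈ K) (hu : u ∈ K) (hne : u ≠ k) : arc k u := by
  have h1 : u ∈ Finset.univ.filter (fun u => arc k u) := by
    rw [exact_out hy h hk]
    exact Finset.mem_insert_of_mem (Finset.mem_erase.2 ⟨hne, hu⟩)
  exact (Finset.mem_filter.1 h1).2

theorem arc_z (hy : Hyp r arc X) {x y : V} {K : Finset V} {z : V}
    (h : Alpha r arc x y K z) {k : V} (hk : k ∈ K) : arc k z := by
  have h1 : z ∈ Finset.univ.filter (fun u => arc k u) := by
    rw [exact_out hy h hk]
    exact Finset.mem_insert_self _ _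
  exact (Finset.mem_filter.1 h1).2

theorem not_univ (hy : Hyp r arc X) {B : Finset V} (hB : B.card < 2 * r) : B ≠ Finset.univ := by
  rintro rfl
  rw [Finset.card_univ, hy.hV] at hB
  exact lt_irrefl _ hB

/-- (a1) -/
theorem disj (hy : Hyp r arc X) {x y : V} {K : Finset V} {z : V}
    (h : Alpha r arc x y K z) (hx : x ∈ X) {k : V} (hk : k ∈ K) (hkX : k ∈ X) : False := by
  have hxk : x ≠ k := fun e => h.xK (e ▸ hk)
  obtain ⟨A, z₁, hxA, hkA, hzA, hcard, hcl⟩ := hy.prs x hx k hkX hxk
  have hr := hy.hr
  have h1 : ∀ a ∈ A, ¬ arc a k := by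
    intro a ha hak
    rcases hcl a ha k hak with h2 | h2
    · exact hzA (h2 ▸ hkA)
    · exact h2.2.2 rfl
  have h2 : ∀ k' ∈ K, k' ≠ k → k' = z₁ := by
    intro k' hk' hne
    rcases hcl k hkA k' (arc_of_mem hy h hk hk' hne) with h3 | h3
    · exact h3
    · exact absurd (arc_of_mem hy h hk' hk hne.symm) (h1 k' h3.1)
  have h3 : (K.erase k).Nonempty := by
    rw [← Finset.card_pos, Finset.card_erase_of_mem hk, h.card]
    omega
  obtain ⟨k', hk'⟩ := h3
  have h4 := h2 k' (Finset.mem_of_mem_erase hk') (Finset.ne_of_mem_erase hk')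
  have hz1K : z₁ ∈ K := h4 ▸ Finset.mem_of_mem_erase hk'
  have hzA' : z ∈ A := by
    rcases hcl k hkA z (arc_z hy h hk) with h5 | h5
    · exact absurd (h5 ▸ hz1K) h.zK
    · exact h5.1
  have hB := hy.noc (insert z₁ A) ⟨z₁, Finset.mem_insert_self _ _⟩ (by
    intro v hv u hvu
    rcases Finset.mem_insert.1 hv with rfl | hv
    · rcases h.oK _ hz1K u hvu with rfl | h5
      · exact Finset.mem_insert_of_mem hzA'
      · by_cases h6 : u = k
        · rw [h6]
          exact Finset.mem_insert_of_mem hkA
        · rw [h2 u h5 h6]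
          exact Finset.mem_insert_self _ _
    · rcases hcl v hv u hvu with rfl | h5
      · exact Finset.mem_insert_self _ _
      · exact Finset.mem_insert_of_mem h5.1)
  refine not_univ hy ?_ hB
  rw [Finset.card_insert_of_notMem hzA]
  omega

/-- a common element of two pairs with disjoint sets `K` -/
theorem common (hy : Hyp r arc X) {x y x' y' c : V} {K K' : Finset V} {z z' : V}
    (h : Alpha r arc x y K z) (h' : Alpha r arc x' y' K' z') (hd : Disjoint K K')
    (hc : ∀ u, arc c u → u = z ∨ u ∈ K) (hc' : ∀ u, arc c u → u = z' ∨ u ∈ K') : False := by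
  have hr := hy.hr
  have hsub : Finset.univ.filter (fun u => arc c u) ⊆ {z, z'} := by
    intro u hu
    have hu' : arc c u := (Finset.mem_filter.1 hu).2
    rw [Finset.mem_insert, Finset.mem_singleton]
    rcases hc u hu' with h1 | h1
    · exact Or.inl h1
    · rcases hc' u hu' with h2 | h2
      · exact Or.inr h2
      · exact absurd h2 (Finset.disjoint_left.1 hd h1)
  have hcard : 2 ≤ (Finset.univ.filter (fun u => arc c u)).card := by
    have := hy.out c
    omega
  have hle : ({z, z'} : Finset V).card ≤ 2 := Finset.card_le_two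
  have heq : Finset.univ.filter (fun u => arc c u) = {z, z'} :=
    Finset.eq_of_subset_of_card_le hsub (hle.trans hcard)
  have hne : z ≠ z' := by
    rintro rfl
    rw [heq] at hcard
    simp at hcard
  have a1 : arc c z := by
    have : z ∈ Finset.univ.filter (fun u => arc c u) := by
      rw [heq]
      simp
    exact (Finset.mem_filter.1 this).2
  have a2 : arc c z' := by
    have : z' ∈ Finset.univ.filter (fun u => arc c u) := by
      rw [heq]
      simp
    exact (Finset.mem_filter.1 this).2
  have b1 : z ∈ K' := (hc' z a1).resolve_left hne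
  have b2 : z' ∈ K := (hc z' a2).resolve_left hne.symm
  have hB := hy.noc (K ∪ K') ⟨z, Finset.mem_union_right _ b1⟩ (by
    intro v hv u hvu
    rcases Finset.mem_union.1 hv with hv | hv
    · rcases h.oK v hv u hvu with rfl | h5
      · exact Finset.mem_union_right _ b1
      · exact Finset.mem_union_left _ h5
    · rcases h'.oK v hv u hvu with rfl | h5
      · exact Finset.mem_union_left _ b2
      · exact Finset.mem_union_right _ h5)
  refine not_univ hy ?_ hB
  have := Finset.card_union_le K K'
  rw [h.card, h'.card] at this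
  omega

/-- (a2) -/
theorem unique (hy : Hyp r arc X) {x y x' y' : V} {K K' : Finset V} {z z' : V}
    (h : Alpha r arc x y K z) (h' : Alpha r arc x' y' K' z') (hx : x ∈ X) (hyX : y ∈ X)
    (hx' : x' ∈ X) (hyX' : y' ∈ X) : K = K' ∧ z = z' := by
  have hr := hy.hr
  have hK : ∀ k ∈ K, k ∉ X := fun k hk hkX => disj hy h hx hk hkX
  have hK' : ∀ k ∈ K', k ∉ X := fun k hk hkX => disj hy h' hx' hk hkX
  by_cases hd : Disjoint K K'
  · exfalso
    by_cases c1 : x = x'
    · subst c1
      exact common hy h h' hd h.ox h'.ox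
    by_cases c2 : x = y'
    · subst c2
      exact common hy h h' hd h.ox h'.oy
    by_cases c3 : y = x'
    · subst c3
      exact common hy h h' hd h.oy h'.ox
    by_cases c4 : y = y'
    · subst c4
      exact common hy h h' hd h.oy h'.oy
    have hsub : K ∪ K' ⊆ Xᶜ := by
      intro u hu
      rw [Finset.mem_compl]
      rcases Finset.mem_union.1 hu with hu | hu
      · exact hK u hu
      · exact hK' u hu
    have hcXc : Xᶜ.card = r := by
      rw [Finset.card_compl, hy.hV, hy.hX]
      omega
    have hcU : (K ∪ K').card = (r - 2) + (r - 2) := by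
      rw [Finset.card_union_of_disjoint hd, h.card, h'.card]
    have hle := Finset.card_le_card hsub
    have hr4 : r = 4 := by omega
    have hUeq : K ∪ K' = Xᶜ := Finset.eq_of_subset_of_card_le hsub (by omega)
    have hXeq : ({x, y, x', y'} : Finset V) = X := by
      apply Finset.eq_of_subset_of_card_le
      · intro u hu
        simp only [Finset.mem_insert, Finset.mem_singleton] at hu
        rcases hu with rfl | rfl | rfl | rfl
        · exact hx
        · exact hyX
        · exact hx'
        · exact hyX'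
      · rw [hy.hX, hr4, Finset.card_insert_of_notMem, Finset.card_insert_of_notMem,
          Finset.card_insert_of_notMem, Finset.card_singleton]
        · simp only [Finset.mem_singleton]
          exact h'.xy
        · simp only [Finset.mem_insert, Finset.mem_singleton, not_or]
          exact ⟨c3, c4⟩
        · simp only [Finset.mem_insert, Finset.mem_singleton, not_or]
          exact ⟨h.xy, c1, c2⟩
    have key : ∀ v ∈ X, v ∉ K → v ≠ z → v = z' := by
      intro v hvX hvK hvz
      have h1 : 0 < (Finset.univ.filter fun u => arc u v).card := by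
        have := hy.inn v
        omega
      obtain ⟨u, hu⟩ := Finset.card_pos.1 h1
      have huv : arc u v := (Finset.mem_filter.1 hu).2
      have hno : v = z ∨ v ∈ K → False := fun h2 => by
        rcases h2 with h2 | h2
        · exact hvz h2
        · exact hvK h2
      have hno' : v = z' ∨ v ∈ K' → v = z' := fun h2 => by
        rcases h2 with h2 | h2
        · exact h2
        · exact absurd hvX (hK' v h2)
      by_cases huX : u ∈ X
      · rw [← hXeq] at huX
        simp only [Finset.mem_insert, Finset.mem_singleton] at huX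
        rcases huX with rfl | rfl | rfl | rfl
        · exact (hno (h.ox v huv)).elim
        · exact (hno (h.oy v huv)).elim
        · exact hno' (h'.ox v huv)
        · exact hno' (h'.oy v huv)
      · have h2 : u ∈ K ∪ K' := by
          rw [hUeq]
          exact Finset.mem_compl.2 huX
        rcases Finset.mem_union.1 h2 with h2 | h2
        · exact (hno (h.oK u h2 v huv)).elim
        · exact hno' (h'.oK u h2 v huv)
    have e1 := key x hx h.xK h.zx.symm
    have e2 := key y hyX h.yK h.zy.symm
    exact h.xy (e1.trans e2.symm)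
  · obtain ⟨k, hkK, hkK'⟩ := Finset.not_disjoint_iff.1 hd
    have heq : insert z (K.erase k) = insert z' (K'.erase k) := by
      rw [← exact_out hy h hkK, ← exact_out hy h' hkK']
    by_cases hzz : z = z'
    · refine ⟨?_, hzz⟩
      subst hzz
      have h1 : z ∉ K.erase k := fun hz => h.zK (Finset.mem_of_mem_erase hz)
      have h2 : z ∉ K'.erase k := fun hz => h'.zK (Finset.mem_of_mem_erase hz)
      have h3 : K.erase k = K'.erase k := by
        rw [← Finset.erase_insert h1, heq, Finset.erase_insert h2]
      rw [← Finset.insert_erase hkK, h3, Finset.insert_erase hkK']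
    · exfalso
      have hzK' : z ∈ K' := by
        have h1 : z ∈ insert z' (K'.erase k) := by
          rw [← heq]
          exact Finset.mem_insert_self _ _
        rcases Finset.mem_insert.1 h1 with h2 | h2
        · exact absurd h2 hzz
        · exact Finset.mem_of_mem_erase h2
      have hzK : z' ∈ K := by
        have h1 : z' ∈ insert z (K.erase k) := by
          rw [heq]
          exact Finset.mem_insert_self _ _
        rcases Finset.mem_insert.1 h1 with h2 | h2
        · exact absurd h2.symm hzz
        · exact Finset.mem_of_mem_erase h2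
      have hB := hy.noc (insert z (insert x K)) ⟨z, Finset.mem_insert_self _ _⟩ (by
        have hgo : ∀ u, u = z ∨ u ∈ K → u ∈ insert z (insert x K) := by
          intro u hu
          rcases hu with rfl | hu
          · exact Finset.mem_insert_self _ _
          · exact Finset.mem_insert_of_mem (Finset.mem_insert_of_mem hu)
        intro v hv u hvu
        rcases Finset.mem_insert.1 hv with rfl | hv
        · rcases h'.oK _ hzK' u hvu with rfl | h5
          · exact hgo _ (Or.inr hzK)
          · by_cases h6 : u = k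
            · rw [h6]
              exact hgo _ (Or.inr hkK)
            · have h7 : u ∈ insert v (K.erase k) := by
                rw [heq]
                exact Finset.mem_insert_of_mem (Finset.mem_erase.2 ⟨h6, h5⟩)
              rcases Finset.mem_insert.1 h7 with h8 | h8
              · exact hgo _ (Or.inl h8)
              · exact hgo _ (Or.inr (Finset.mem_of_mem_erase h8))
        · rcases Finset.mem_insert.1 hv with rfl | hv
          · exact hgo _ (h.ox u hvu)
          · exact hgo _ (h.oK v hv u hvu))
      refine not_univ hy ?_ hB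
      have h1 := Finset.card_insert_le z (insert x K)
      have h2 := Finset.card_insert_le x K
      rw [h.card] at h2
      omega

/-- the end, if all elements of `X` are in pairs of the first type -/
theorem all_alpha (hy : Hyp r arc X)
    (hall : ∀ x ∈ X, ∃ y ∈ X, ∃ K z, Alpha r arc x y K z) : False := by
  have hr := hy.hr
  have hXne : X.Nonempty := by
    rw [← Finset.card_pos, hy.hX]
    omega
  obtain ⟨x₀, hx₀⟩ := hXne
  obtain ⟨y₀, hy₀, K, z, h₀⟩ := hall x₀ hx₀
  have hKX : Disjoint K X := by
    rw [Finset.disjoint_left]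
    intro k hk hkX
    exact disj hy h₀ hx₀ hk hkX
  have hX' : ∀ x ∈ X, z ≠ x ∧ ∀ u, arc x u → u = z ∨ u ∈ K := by
    intro x hx
    obtain ⟨y, hyX, K', z', h⟩ := hall x hx
    obtain ⟨rfl, rfl⟩ := unique hy h₀ h hx₀ hy₀ hx hyX
    exact ⟨h.zx, h.ox⟩
  have hR : (K ∪ X)ᶜ.card = 2 := by
    rw [Finset.card_compl, Finset.card_union_of_disjoint hKX, hy.hV, hy.hX, h₀.card]
    omega
  have hzR : z ∈ (K ∪ X)ᶜ := by
    rw [Finset.mem_compl, Finset.mem_union, not_or]
    exact ⟨h₀.zK, fun hz => (hX' z hz).1 rfl⟩
  obtain ⟨v, hv⟩ : ((K ∪ X)ᶜ.erase z).Nonempty := by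
    rw [← Finset.card_pos, Finset.card_erase_of_mem hzR, hR]
    omega
  have hvz : v ≠ z := Finset.ne_of_mem_erase hv
  have hvR : v ∈ (K ∪ X)ᶜ := Finset.mem_of_mem_erase hv
  have hvK : v ∉ K := fun h => (Finset.mem_compl.1 hvR) (Finset.mem_union_left _ h)
  have hsub : (Finset.univ.filter fun u => arc u v) ⊆ (K ∪ X)ᶜ.erase v := by
    intro u hu
    have huv : arc u v := (Finset.mem_filter.1 hu).2
    refine Finset.mem_erase.2 ⟨?_, ?_⟩
    · rintro rfl
      exact hy.irr _ huv
    · rw [Finset.mem_compl]
      intro h1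
      have h2 : v = z ∨ v ∈ K := by
        rcases Finset.mem_union.1 h1 with h2 | h2
        · exact h₀.oK u h2 v huv
        · exact (hX' u h2).2 v huv
      rcases h2 with h2 | h2
      · exact hvz h2
      · exact hvK h2
  have h1 := Finset.card_le_card hsub
  rw [Finset.card_erase_of_mem hvR, hR] at h1
  have := hy.inn v
  omega

/-- the reversed relation -/
theorem rev (hy : Hyp r arc X) : Hyp r (fun a b => arc b a) X where
  hr := hy.hr
  hV := hy.hV
  hX := hy.hX
  irr := hy.irr
  out := hy.inn
  inn := hy.out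
  noc := by
    intro B hB hcl
    by_contra hne
    have h1 : (Bᶜ).Nonempty := by
      rw [Finset.nonempty_iff_ne_empty]
      intro h2
      exact hne (by rwa [Finset.compl_eq_empty_iff] at h2)
    have h2 := hy.noc Bᶜ h1 (by
      intro v hv u hvu
      rw [Finset.mem_compl] at hv ⊢
      exact fun hu => hv (hcl u hu v hvu))
    rw [Finset.compl_eq_univ_iff] at h2
    rw [h2] at hB
    exact Finset.not_nonempty_empty hB
  prs := by
    intro x hx y hyX hxy
    obtain ⟨A, z, hxA, hyA, hzA, hcard, hcl⟩ := hy.prs x hx y hyX hxy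
    have hzx : z ≠ x := fun h => hzA (h ▸ hxA)
    have hzy : z ≠ y := fun h => hzA (h ▸ hyA)
    have hA : ∀ u ∈ A, ∀ a, arc u a → a = z ∨ (a ∈ A ∧ a ≠ x ∧ a ≠ y) := hcl
    refine ⟨insert x (insert y (Aᶜ.erase z)), z, Finset.mem_insert_self _ _,
      Finset.mem_insert_of_mem (Finset.mem_insert_self _ _), ?_, ?_, ?_⟩
    · rw [Finset.mem_insert, Finset.mem_insert, not_or, not_or]
      exact ⟨hzx, hzy, Finset.notMem_erase _ _⟩
    · have h1 : y ∉ Aᶜ.erase z := fun h => (Finset.mem_compl.1 (Finset.mem_of_mem_erase h)) hyA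
      have h2 : x ∉ insert y (Aᶜ.erase z) := by
        rw [Finset.mem_insert, not_or]
        exact ⟨hxy, fun h => (Finset.mem_compl.1 (Finset.mem_of_mem_erase h)) hxA⟩
      rw [Finset.card_insert_of_notMem h2, Finset.card_insert_of_notMem h1,
        Finset.card_erase_of_mem (Finset.mem_compl.2 hzA), Finset.card_compl, hy.hV]
      have := hy.hr
      omega
    · intro a ha u hau
      have hau' : arc u a := hau
      have huA : u ∉ A := by
        intro hu
        rcases hA u hu a hau' with h1 | ⟨h1, h2, h3⟩
        · rw [h1] at ha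
          rcases Finset.mem_insert.1 ha with h4 | h4
          · exact hzx h4
          · rcases Finset.mem_insert.1 h4 with h5 | h5
            · exact hzy h5
            · exact Finset.notMem_erase _ _ h5
        · rcases Finset.mem_insert.1 ha with h4 | h4
          · exact h2 h4
          · rcases Finset.mem_insert.1 h4 with h5 | h5
            · exact h3 h5
            · exact (Finset.mem_compl.1 (Finset.mem_of_mem_erase h5)) h1
      by_cases huz : u = z
      · exact Or.inl huz
      · refine Or.inr ⟨Finset.mem_insert_of_mem (Finset.mem_insert_of_mem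
          (Finset.mem_erase.2 ⟨huz, Finset.mem_compl.2 huA⟩)), ?_, ?_⟩
        · rintro rfl
          exact huA hxA
        · rintro rfl
          exact huA hyA

/-- every pair is of the first type for the relation or for the reversed relation -/
theorem alpha_or (hy : Hyp r arc X) {x y : V} (hx : x ∈ X) (hyX : y ∈ X) (hxy : x ≠ y) :
    (∃ K z, Alpha r arc x y K z) ∨ ∃ K z, Alpha r (fun a b => arc b a) x y K z := by
  have hr := hy.hr
  obtain ⟨A, z, hxA, hyA, hzA, hcard, hcl⟩ := hy.prs x hx y hyX hxy
  have hzx : z ≠ x := fun h => hzA (h ▸ hxA)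
  have hzy : z ≠ y := fun h => hzA (h ▸ hyA)
  rcases hcard with hcard | hcard
  · left
    have hin : ∀ u, u = z ∨ (u ∈ A ∧ u ≠ x ∧ u ≠ y) → u = z ∨ u ∈ (A.erase x).erase y := by
      rintro u (h | ⟨h1, h2, h3⟩)
      · exact Or.inl h
      · exact Or.inr (Finset.mem_erase.2 ⟨h3, Finset.mem_erase.2 ⟨h2, h1⟩⟩)
    refine ⟨(A.erase x).erase y, z, ?_, ?_, Finset.notMem_erase _ _, ?_, hxy, hzx, hzy, ?_, ?_,
      ?_⟩
    · rw [Finset.card_erase_of_mem (Finset.mem_erase.2 ⟨hxy.symm, hyA⟩),
        Finset.card_erase_of_mem hxA, hcard]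
      omega
    · exact fun h => Finset.notMem_erase x A (Finset.mem_of_mem_erase h)
    · exact fun h => hzA (Finset.mem_of_mem_erase (Finset.mem_of_mem_erase h))
    · exact fun k hk u hku =>
        hin u (hcl k (Finset.mem_of_mem_erase (Finset.mem_of_mem_erase hk)) u hku)
    · exact fun u hu => hin u (hcl x hxA u hu)
    · exact fun u hu => hin u (hcl y hyA u hu)
  · right
    have hout : ∀ a, (a = x ∨ a = y ∨ a ∈ Aᶜ.erase z) → ∀ u, arc u a →
        u = z ∨ u ∈ Aᶜ.erase z := by
      intro a ha u hua
      have huA : u ∉ A := by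
        intro hu
        rcases hcl u hu a hua with h1 | ⟨h1, h2, h3⟩
        · rw [h1] at ha
          rcases ha with h4 | h5 | h5
          · exact hzx h4
          · exact hzy h5
          · exact Finset.notMem_erase _ _ h5
        · rcases ha with h4 | h5 | h5
          · exact h2 h4
          · exact h3 h5
          · exact (Finset.mem_compl.1 (Finset.mem_of_mem_erase h5)) h1
      by_cases huz : u = z
      · exact Or.inl huz
      · exact Or.inr (Finset.mem_erase.2 ⟨huz, Finset.mem_compl.2 huA⟩)
    refine ⟨Aᶜ.erase z, z, ?_, ?_, ?_, Finset.notMem_erase _ _, hxy, hzx, hzy, ?_, ?_, ?_⟩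
    · rw [Finset.card_erase_of_mem (Finset.mem_compl.2 hzA), Finset.card_compl, hy.hV, hcard]
      omega
    · exact fun h => (Finset.mem_compl.1 (Finset.mem_of_mem_erase h)) hxA
    · exact fun h => (Finset.mem_compl.1 (Finset.mem_of_mem_erase h)) hyA
    · exact fun k hk u hku => hout k (Or.inr (Or.inr hk)) u hku
    · exact fun u hu => hout x (Or.inl rfl) u hu
    · exact fun u hu => hout y (Or.inr (Or.inl rfl)) u hu

/-- The combinatorial end of the digraph lemma. -/
theorem digb' (hy : Hyp r arc X) : False := by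
  have hr := hy.hr
  by_cases hall : ∀ x ∈ X, ∃ y ∈ X, ∃ K z, Alpha r arc x y K z
  · exact all_alpha hy hall
  · push Not at hall
    obtain ⟨x, hx, hno⟩ := hall
    have hbeta : ∀ y ∈ X, y ≠ x → ∃ K z, Alpha r (fun a b => arc b a) x y K z := by
      intro y hyX hne
      rcases alpha_or hy hx hyX hne.symm with ⟨K, z, h⟩ | h
      · exact absurd h (hno y hyX K z)
      · exact h
    refine all_alpha (rev hy) ?_
    intro x' hx'
    by_cases hxx : x' = x
    · subst hxx
      obtain ⟨y, hyX⟩ : (X.erase x').Nonempty := by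
        rw [← Finset.card_pos, Finset.card_erase_of_mem hx', hy.hX]
        omega
      have h1 := Finset.mem_of_mem_erase hyX
      exact ⟨y, h1, hbeta y h1 (Finset.ne_of_mem_erase hyX)⟩
    · obtain ⟨K, z, h⟩ := hbeta x' hx' hxx
      exact ⟨x, hx, K, z, h.symm⟩

/-- The combinatorial end of the digraph lemma, with explicit hypotheses. -/
theorem digb (r : ℕ) (hr : 4 ≤ r) (V : Type) [Fintype V] [DecidableEq V]
    (arc : V → V → Prop) [DecidableRel arc] (X : Finset V) (hV : Fintype.card V = 2 * r)
    (hX : X.card = r) (hirr : ∀ v, ¬ arc v v)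
    (hout : ∀ v, r - 2 ≤ (Finset.univ.filter fun u => arc v u).card)
    (hin : ∀ v, r - 2 ≤ (Finset.univ.filter fun u => arc u v).card)
    (hA : ∀ B : Finset V, B.Nonempty → (∀ v ∈ B, ∀ u, arc v u → u ∈ B) → B = Finset.univ)
    (hB : ∀ x ∈ X, ∀ y ∈ X, x ≠ y → ∃ (A : Finset V) (z : V), x ∈ A ∧ y ∈ A ∧ z ∉ A ∧
      (A.card = r ∨ A.card = r + 1) ∧
      ∀ a ∈ A, ∀ u, arc a u → u = z ∨ (u ∈ A ∧ u ≠ x ∧ u ≠ y)) : False :=
  digb' (r := r) (arc := arc) (X := X) ⟨hr, hV, hX, hirr, hout, hin, hA, hB⟩

end Pool.Agent.H286.CPG
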